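import Pool.Agent.Lib.MP_4a2528_ag.Final

/-!
Signs of the Chern character numbers of the Hilbert schemes of points on a K3 surface,
all partitions.
-/

namespace Pool.Agent.Results.MP_4a2528_ag.HilbK3AllPartitions

open PowerSeries

/-- The hook length (arm + leg + 1) of the cell `c = (row, column)` of the Young diagram `μ`. -/
def hook (μ : YoungDiagram) (c : ℕ × ℕ) : ℕ :=
  (μ.rowLen c.1 - c.2) + (μ.colLen c.2 - c.1) - 1

/-- The value of `ch_{2k}` of the tangent space of the Hilbert scheme of points of the plane at the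
torus fixed point `μ`, for the torus weights `(1, -1)`: the tangent weights are `hook` and `-hook`,
one pair for each cell, so this is `∑ 2 hook^(2k) / (2k)!`. -/
def ch (k : ℕ) (μ : YoungDiagram) : ℚ :=
  ∑ c ∈ μ.cells, 2 * (hook μ c : ℚ) ^ (2 * k) / (2 * k).factorial

/-- The Euler class of that tangent space, `∏ (-hook^2)`. -/
def euler (μ : YoungDiagram) : ℚ := ∏ c ∈ μ.cells, -(hook μ c : ℚ) ^ 2

/-- The power series `∑_{|μ| = n} exp (∑_i a_i ch_{2k_i}(μ)) / euler μ` in `a_1, …, a_r`, given by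
its coefficients of `a^α`; the sum is over the Young diagrams `μ` with `n` cells. -/
noncomputable def Zn {r : ℕ} (k : Fin r → ℕ) (n : ℕ) : MvPowerSeries (Fin r) ℚ :=
  fun α : Fin r →₀ ℕ => ∑ᶠ μ ∈ {μ : YoungDiagram | μ.card = n},
    (∏ i, ch (k i) μ ^ α i / (α i).factorial) / euler μ

/-- The series `Z = ∑_n Zn z^n` in `z` over the power series in `a_1, …, a_r`. -/
noncomputable def Z {r : ℕ} (k : Fin r → ℕ) : (MvPowerSeries (Fin r) ℚ)⟦X⟧ := PowerSeries.mk (Zn k)

/-- The part of the `z^n`-coefficient of `log Z` with the monomials `a^α` such that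
`n = ∑_i α_i k_i`. -/
noncomputable def Gn {r : ℕ} (k : Fin r → ℕ) (n : ℕ) : MvPowerSeries (Fin r) ℚ :=
  fun α : Fin r →₀ ℕ => if n = ∑ i, α i * k i then
    MvPowerSeries.coeff α (coeff n (logOf (Z k))) else 0

/-- The equivariant degree zero part of `log Z`. -/
noncomputable def G {r : ℕ} (k : Fin r → ℕ) : (MvPowerSeries (Fin r) ℚ)⟦X⟧ := PowerSeries.mk (Gn k)

/-- The coefficient of `a_1 ⋯ a_r z^n`, `n = k_1 + ⋯ + k_r`, in `exp (24 G)`. -/
noncomputable def chernNumber {r : ℕ} (k : Fin r → ℕ) : ℚ :=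
  MvPowerSeries.coeff (∑ i, Finsupp.single i 1)
    (coeff (∑ i, k i) ((exp (MvPowerSeries (Fin r) ℚ)).subst (24 * G k)))

theorem coeff_Z {r : ℕ} (k : Fin r → ℕ) (m : ℕ) : coeff m (Z k) = ∑ μ ∈ MP4a.ydF m,
    algebraMap ℚ (MP4a.MS r) ((∏ c ∈ μ.cells, -(MP4a.hookLen μ c : ℚ) ^ 2)⁻¹)
      * MP4a.Exq (MP4a.chq k μ) := by
  rw [Z, coeff_mk]
  ext α
  rw [map_sum]
  have h1 : ∀ μ : YoungDiagram, MvPowerSeries.coeff α (algebraMap ℚ (MP4a.MS r)
      ((∏ c ∈ μ.cells, -(MP4a.hookLen μ c : ℚ) ^ 2)⁻¹) * MP4a.Exq (MP4a.chq k μ))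
      = (∏ i, ch (k i) μ ^ α i / (α i).factorial) / euler μ := by
    intro μ
    rw [MvPowerSeries.algebraMap_apply, MvPowerSeries.coeff_C_mul, MP4a.coeff_Exq,
      div_eq_mul_inv _ (euler μ), mul_comm]
    rfl
  rw [Finset.sum_congr rfl fun μ _ => h1 μ]
  change ∑ᶠ μ ∈ {μ : YoungDiagram | μ.card = m},
      (∏ i, ch (k i) μ ^ α i / (α i).factorial) / euler μ = _
  rw [finsum_mem_eq_finite_toFinset_sum _ (MP4a.finite_card m)]
  rfl

/-- For all positive integers `k_1, …, k_r` the number `chernNumber k`, which is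
`∫ ch_{2k_1} ⋯ ch_{2k_r}` over the Hilbert scheme of `n = k_1 + ⋯ + k_r` points on a K3 surface,
has the sign `(-1)^n`. -/
theorem result {r : ℕ} (k : Fin r → ℕ) (hk : ∀ i, 0 < k i) :
    0 < (-1) ^ (∑ i, k i) * chernNumber k := by
  have hZ := coeff_Z k
  have hc : ∀ m α, MvPowerSeries.coeff α (coeff m (G k))
      = if m = ∑ i, α i * k i then MvPowerSeries.coeff α (coeff m (logOf (Z k))) else 0 := by
    intro m α
    rw [G, coeff_mk]; rfl
  refine MP4a.exp_coeff_pos hk ?_ ?_ ?_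
  · ext α
    rw [← coeff_zero_eq_constantCoeff_apply, hc, coeff_zero_eq_constantCoeff_apply,
      constantCoeff_logOf (MP4a.Z_cc hZ)]
    split_ifs <;> simp
  · intro m α
    rw [MP4a.sg, hc]
    split_ifs with h
    · exact MP4a.log_nonneg hZ hk m α h.symm
    · rw [mul_zero]
  · intro i
    rw [MP4a.sg, hc, if_pos]
    · exact MP4a.log_pos hZ hk i
    · rw [Finset.sum_eq_single i]
      · simp
      · intro j _ hj
        rw [Finsupp.single_apply, if_neg (Ne.symm hj), zero_mul]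
      · intro h; exact absurd (Finset.mem_univ i) h

end Pool.Agent.Results.MP_4a2528_ag.HilbK3AllPartitions
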